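import Pool.Agent.V1172.BK.Transfer

/-!
Burns–Krantz rigidity of the symmetrized bidisc at its smooth boundary points.
-/

set_option autoImplicit false

open Set Filter Topology Metric Asymptotics

namespace Pool.Agent.Results.MP_f98e31_an.SmoothPoints

/-- The symmetrized bidisc `𝔾₂ = {(a + b, a b) : |a| < 1, |b| < 1}`. -/
def SymBidisc : Set (ℂ × ℂ) := {q | ∃ a b : ℂ, ‖a‖ < 1 ∧ ‖b‖ < 1 ∧ q = (a + b, a * b)}

/-- The Shilov boundary `S = {(a + b, a b) : |a| = 1, |b| = 1}`. -/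
def Shilov : Set (ℂ × ℂ) := {q | ∃ a b : ℂ, ‖a‖ = 1 ∧ ‖b‖ = 1 ∧ q = (a + b, a * b)}

/-- The Euclidean norm on `ℂ²`. -/
noncomputable def eucl (v : ℂ × ℂ) : ℝ := Real.sqrt (‖v.1‖ ^ 2 + ‖v.2‖ ^ 2)

/-- The Burns–Krantz condition at `p`: `F(z) = z + o(‖z - p‖³)` as `z → p`, `z ∈ D`. -/
def BurnsKrantz (D : Set (ℂ × ℂ)) (p : ℂ × ℂ) (F : ℂ × ℂ → ℂ × ℂ) : Prop :=
  (fun z => eucl (F z - z)) =o[𝓝[D] p] (fun z => eucl (z - p) ^ 3)

theorem norm_le_eucl (v : ℂ × ℂ) : ‖v‖ ≤ eucl v := by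
  rw [Prod.norm_def, max_le_iff]
  constructor
  · apply Real.le_sqrt_of_sq_le
    nlinarith [sq_nonneg ‖v.2‖]
  · apply Real.le_sqrt_of_sq_le
    nlinarith [sq_nonneg ‖v.1‖]

theorem eucl_nonneg (v : ℂ × ℂ) : 0 ≤ eucl v := Real.sqrt_nonneg _

theorem eucl_le (v : ℂ × ℂ) : eucl v ≤ 2 * ‖v‖ := by
  unfold eucl
  apply Real.sqrt_le_iff.2
  constructor
  · positivity
  · have h1 : ‖v.1‖ ≤ ‖v‖ := norm_fst_le v
    have h2 : ‖v.2‖ ≤ ‖v‖ := norm_snd_le v
    nlinarith [norm_nonneg v.1, norm_nonneg v.2, norm_nonneg v]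

theorem frontier_point {p : ℂ × ℂ} (hp : p ∈ frontier SymBidisc) (hS : p ∉ Shilov) :
    ∃ w lam : ℂ, ‖w‖ = 1 ∧ ‖lam‖ < 1 ∧ p = (w + lam, w * lam) := by
  have hcl : closure SymBidisc ⊆
      (fun x : ℂ × ℂ => (x.1 + x.2, x.1 * x.2)) '' (closedBall (0 : ℂ) 1 ×ˢ closedBall (0 : ℂ) 1) := by
    apply closure_minimal
    · rintro q ⟨a, b, ha, hb, rfl⟩
      refine ⟨(a, b), ⟨?_, ?_⟩, rfl⟩
      · simpa using ha.le
      · simpa using hb.le
    · have hc : IsCompact (closedBall (0 : ℂ) 1 ×ˢ closedBall (0 : ℂ) 1) :=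
        (isCompact_closedBall _ _).prod (isCompact_closedBall _ _)
      exact (hc.image (by fun_prop)).isClosed
  have hopen : IsOpen SymBidisc := Pool.Agent.V1172.BK.isOpen_G2
  have h1 : p ∈ closure SymBidisc := frontier_subset_closure hp
  have h2 : p ∉ SymBidisc := by
    rw [hopen.frontier_eq] at hp
    exact hp.2
  obtain ⟨⟨a, b⟩, ⟨ha, hb⟩, rfl⟩ := hcl h1
  have ha' : ‖a‖ ≤ 1 := by simpa using ha
  have hb' : ‖b‖ ≤ 1 := by simpa using hb
  rcases ha'.lt_or_eq with ha1 | ha1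
  · rcases hb'.lt_or_eq with hb1 | hb1
    · exact absurd ⟨a, b, ha1, hb1, rfl⟩ h2
    · refine ⟨b, a, hb1, ha1, ?_⟩
      simp only [add_comm, mul_comm]
  · rcases hb'.lt_or_eq with hb1 | hb1
    · exact ⟨a, b, ha1, hb1, rfl⟩
    · exact absurd ⟨a, b, ha1, hb1, rfl⟩ hS

/-- The rotation `(s, q) ↦ (w s, w² q)`. -/
noncomputable def rot (w : ℂ) (z : ℂ × ℂ) : ℂ × ℂ := (w * z.1, w ^ 2 * z.2)

theorem rot_mem {w : ℂ} (hw : ‖w‖ = 1) {z : ℂ × ℂ} (hz : z ∈ SymBidisc) :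
    rot w z ∈ SymBidisc := by
  obtain ⟨a, b, ha, hb, rfl⟩ := hz
  refine ⟨w * a, w * b, ?_, ?_, ?_⟩
  · rw [norm_mul, hw, one_mul]; exact ha
  · rw [norm_mul, hw, one_mul]; exact hb
  · unfold rot
    ext
    · simp only; ring
    · simp only; ring

theorem rot_diff (w : ℂ) : Differentiable ℂ (rot w) := by
  unfold rot
  fun_prop

theorem norm_rot_sub {w : ℂ} (hw : ‖w‖ = 1) (z z' : ℂ × ℂ) :
    ‖rot w z - rot w z'‖ = ‖z - z'‖ := by
  have h1 : (rot w z - rot w z').1 = w * (z - z').1 := by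
    simp only [rot, Prod.fst_sub]; ring
  have h2 : (rot w z - rot w z').2 = w ^ 2 * (z - z').2 := by
    simp only [rot, Prod.snd_sub]; ring
  rw [Prod.norm_def, Prod.norm_def (x := z - z'), h1, h2, norm_mul, norm_mul, norm_pow, hw]
  simp

theorem rot_rot_inv {w : ℂ} (hw : w ≠ 0) (z : ℂ × ℂ) : rot w (rot w⁻¹ z) = z := by
  unfold rot
  ext
  · simp only; field_simp
  · simp only; field_simp

theorem rot_inv_rot {w : ℂ} (hw : w ≠ 0) (z : ℂ × ℂ) : rot w⁻¹ (rot w z) = z := by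
  unfold rot
  ext
  · simp only; field_simp
  · simp only; field_simp

/-- **Burns–Krantz rigidity at every smooth boundary point of the symmetrized bidisc.** -/
theorem result : ∀ p ∈ frontier SymBidisc \ Shilov, ∀ F : ℂ × ℂ → ℂ × ℂ,
    DifferentiableOn ℂ F SymBidisc → MapsTo F SymBidisc SymBidisc →
    BurnsKrantz SymBidisc p F → ∀ z ∈ SymBidisc, F z = z := by
  rintro p ⟨hp, hS⟩ F hF hm hBK
  obtain ⟨w, lam, hw, hlam, rfl⟩ := frontier_point hp hS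
  have hw0 : w ≠ 0 := by
    intro h; rw [h, norm_zero] at hw; exact zero_ne_one hw
  have hwi : ‖w⁻¹‖ = 1 := by rw [norm_inv, hw, inv_one]
  have hl' : ‖w⁻¹ * lam‖ < 1 := by rw [norm_mul, hwi, one_mul]; exact hlam
  have hpt : rot w (1 + w⁻¹ * lam, w⁻¹ * lam) = (w + lam, w * lam) := by
    unfold rot
    ext
    · simp only; field_simp
    · simp only; field_simp
  have hkey := Pool.Agent.V1172.BK.bk_one (w⁻¹ * lam) hl' (fun z => rot w⁻¹ (F (rot w z))) ?_ ?_ ?_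
  · intro z hz
    have h1 := hkey (rot w⁻¹ z) (rot_mem hwi hz)
    simp only [rot_rot_inv hw0] at h1
    have h2 := congrArg (rot w) h1
    rwa [rot_rot_inv hw0, rot_rot_inv hw0] at h2
  · intro z hz
    have hz' : z ∈ SymBidisc := hz
    have h1 : DifferentiableAt ℂ F (rot w z) :=
      (hF _ (rot_mem hw hz')).differentiableAt
        (Pool.Agent.V1172.BK.isOpen_G2.mem_nhds (rot_mem hw hz'))
    have h2 : DifferentiableAt ℂ (fun z => F (rot w z)) z :=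
      DifferentiableAt.comp z (f := rot w) h1 (rot_diff w z)
    exact (DifferentiableAt.comp z (f := fun z => F (rot w z)) (rot_diff w⁻¹ _)
      h2).differentiableWithinAt
  · intro z hz
    exact rot_mem hwi (hm (rot_mem hw hz))
  · intro η hη
    have h1 := hBK.def (c := η / 8) (by positivity)
    rw [eventually_nhdsWithin_iff, Metric.eventually_nhds_iff] at h1
    obtain ⟨δ, hδ, h1⟩ := h1
    refine ⟨δ, hδ, fun z hz hzd => ?_⟩
    have hz' : z ∈ SymBidisc := hz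
    have hd : ‖rot w z - (w + lam, w * lam)‖ = ‖z - (1 + w⁻¹ * lam, w⁻¹ * lam)‖ := by
      rw [← hpt, norm_rot_sub hw]
    have h2 := h1 (y := rot w z) (by rw [dist_eq_norm, hd]; exact hzd) (rot_mem hw hz')
    have h3 : ‖rot w⁻¹ (F (rot w z)) - z‖ = ‖F (rot w z) - rot w z‖ := by
      conv_lhs => rw [← rot_inv_rot hw0 z]
      rw [rot_rot_inv hw0, norm_rot_sub hwi]
    show ‖rot w⁻¹ (F (rot w z)) - z‖ ≤ _
    rw [h3, ← hd]
    rw [Real.norm_of_nonneg (eucl_nonneg _),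
      Real.norm_of_nonneg (pow_nonneg (eucl_nonneg _) 3)] at h2
    calc ‖F (rot w z) - rot w z‖ ≤ eucl (F (rot w z) - rot w z) := norm_le_eucl _
      _ ≤ η / 8 * eucl (rot w z - (w + lam, w * lam)) ^ 3 := h2
      _ ≤ η / 8 * (2 * ‖rot w z - (w + lam, w * lam)‖) ^ 3 :=
          mul_le_mul_of_nonneg_left (pow_le_pow_left₀ (eucl_nonneg _) (eucl_le _) 3) (by positivity)
      _ = η * ‖rot w z - (w + lam, w * lam)‖ ^ 3 := by ring

end Pool.Agent.Results.MP_f98e31_an.SmoothPoints
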